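import Mathlib
import Pool.Agent.H29.ENR.Stmts9

set_option autoImplicit false

namespace Pool.ENR

open scoped commutatorElement in
/-- Row FRB of board enr. -/
theorem frb_thm (hFR2 : FR2Stmt) : FRBStmt := by
  intro T _ _ p _ hs hna hp
  by_contra hcon
  have hfr : FrH T p := by
    intro Q hQ n k hn hk hpk x hx
    by_contra hne
    exact hcon ⟨Q, n, k, hQ, hn, hk, hpk, x, hx, hne⟩
  obtain ⟨P⟩ : Nonempty (Sylow p T) := inferInstance
  -- the commutator subgroup of `T` is `T`
  have hT : commutator T = ⊤ := by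
    rcases hs.eq_bot_or_eq_top_of_normal (commutator T) inferInstance with h | h
    · exfalso
      refine hna fun a c => ?_
      have h1 : ⁅a, c⁆ ∈ commutator T :=
        Subgroup.commutator_mem_commutator (Subgroup.mem_top a) (Subgroup.mem_top c)
      rw [h, Subgroup.mem_bot] at h1
      exact commutatorElement_eq_one_iff_mul_comm.1 h1
    · exact h
  have h1 : (P : Subgroup T) ≤ (P : Subgroup T).focalSubgroup := by
    rw [← Subgroup.commutator_inf_eq_focalSubgroup P, hT, top_inf_eq]
  -- the focal subgroup is the commutator subgroup of `P`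
  have h2 : (P : Subgroup T).focalSubgroup ≤ ⁅(P : Subgroup T), (P : Subgroup T)⁆ := by
    rw [Subgroup.focalSubgroup_def, Subgroup.closure_le]
    rintro g ⟨hg, x, hx, u, rfl⟩
    have hx' : x⁻¹ ∈ P := inv_mem hx
    have h3 : u⁻¹⁻¹ * x⁻¹ * u⁻¹ ∈ P := by
      have h4 := (P : Subgroup T).mul_mem hx' hg
      have h5 : x⁻¹ * ⁅x, u⁆ = u⁻¹⁻¹ * x⁻¹ * u⁻¹ := by
        rw [commutatorElement_def, inv_inv]
        group
      rw [h5] at h4
      exact h4
    obtain ⟨v, hv, hvv⟩ := hFR2 T p hfr P x⁻¹ hx' u⁻¹ h3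
    have h6 : ⁅x, u⁆ = ⁅x, v⁻¹⁆ := by
      have h7 : ⁅x, u⁆ = x * (u⁻¹⁻¹ * x⁻¹ * u⁻¹) := by
        rw [commutatorElement_def, inv_inv]
        group
      rw [h7, hvv, commutatorElement_def]
      group
    rw [h6]
    exact Subgroup.commutator_mem_commutator hx (inv_mem hv)
  have h3 : commutator (P : Subgroup T) = ⊤ := by
    rw [← Subgroup.map_subtype_inj, Subgroup.map_subtype_commutator, ← MonoidHom.range_eq_map,
      Subgroup.range_subtype]
    exact le_antisymm (Subgroup.commutator_le.2 fun a ha b hb =>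
      mul_mem (mul_mem (mul_mem ha hb) (inv_mem ha)) (inv_mem hb)) (h1.trans h2)
  -- `P` is a nontrivial `p`-group
  have hPn : Nontrivial (P : Subgroup T) := by
    rw [Subgroup.nontrivial_iff_ne_bot]
    exact P.ne_bot_of_dvd_card hp
  have hN : Group.IsNilpotent (P : Subgroup T) := P.2.isNilpotent
  exact (Group.IsSolvable.commutator_lt_top_of_nontrivial (P : Subgroup T)).ne h3

end Pool.ENR
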