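import Mathlib
import Pool.Agent.H36.ENR.Stmts2

set_option autoImplicit false

namespace Pool.ENR

open Pool.Agent.H81.ENG Pool.Agent.H55.NEU

theorem lrq_aux (h : LRFStmt) (V : Type) [hV : Group V] [Finite V] (hc : ∀ a b : V, a * b = b * a)
    (p μ : ℕ) (s : MulAut V) (hp : p.Prime) (hp2 : p ≠ 2) (hμ : 1 ≤ μ)
    (hcard : ¬ p ∣ Nat.card V) (h1 : s ^ (p ^ μ) = 1) (h2 : s ^ (p ^ (μ - 1)) ≠ 1) :
    ∃ v : V, v ≠ 1 ∧ ∃ r : ℕ, 0 < r ∧ ((ef s)^[r] v = s v ∨ (ef s⁻¹)^[r] v = s⁻¹ v) :=
  @h V { hV with mul_comm := hc } _ p μ s hp hp2 hμ hcard h1 h2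

theorem lrq_thm (hLRF : LRFStmt) : LRQStmt := by
  intro B _ _ N _ p μ E S hp hp2 hμ hS hcom hE hexp hone hne
  have hmap : N.map (S : B ≃* B).toMonoidHom = N := by
    ext y
    constructor
    · rintro ⟨x, hx, rfl⟩
      exact (hS x).1 hx
    · intro hy
      refine ⟨(S : B ≃* B).symm y, ?_, (S : B ≃* B).apply_symm_apply y⟩
      rw [SetLike.mem_coe, hS]
      have : S ((S : B ≃* B).symm y) = y := (S : B ≃* B).apply_symm_apply y
      rw [this]
      exact hy
  let s : MulAut (B ⧸ N) := QuotientGroup.congr N N S hmap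
  have hs : ∀ x : B, s (x : B ⧸ N) = ((S x : B) : B ⧸ N) := fun x => rfl
  have hsi : ∀ x : B, s⁻¹ (x : B ⧸ N) = ((S⁻¹ x : B) : B ⧸ N) := by
    intro x
    apply s.injective
    rw [hs]
    have h1 : s (s⁻¹ (x : B ⧸ N)) = x := MulAut.apply_inv_self _ _ _
    have h2 : S (S⁻¹ x) = x := MulAut.apply_inv_self _ _ _
    rw [h1, h2]
  have hpow : ∀ (n : ℕ) (x : B), (s ^ n) (x : B ⧸ N) = (((S ^ n) x : B) : B ⧸ N) := by
    intro n
    induction n with
    | zero => intro x; rfl
    | succ n ih =>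
      intro x
      rw [pow_succ, pow_succ, MulAut.mul_apply, MulAut.mul_apply, hs, ih]
  have heq : ∀ a b : B, (a : B ⧸ N) = b ↔ a * b⁻¹ ∈ N := by
    intro a b
    rw [QuotientGroup.eq_iff_div_mem, div_eq_mul_inv]
  have hef : ∀ (n : ℕ) (x : B), (ef s)^[n] (x : B ⧸ N) = (((ef S)^[n] x : B) : B ⧸ N) := by
    intro n
    induction n with
    | zero => intro x; rfl
    | succ n ih =>
      intro x
      rw [Function.iterate_succ_apply, Function.iterate_succ_apply]
      have h1 : ef s (x : B ⧸ N) = ((ef S x : B) : B ⧸ N) := rfl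
      rw [h1, ih]
  have hefi : ∀ (n : ℕ) (x : B), (ef s⁻¹)^[n] (x : B ⧸ N) = (((ef S⁻¹)^[n] x : B) : B ⧸ N) := by
    intro n
    induction n with
    | zero => intro x; rfl
    | succ n ih =>
      intro x
      rw [Function.iterate_succ_apply, Function.iterate_succ_apply]
      have h1 : ef s⁻¹ (x : B ⧸ N) = ((ef S⁻¹ x : B) : B ⧸ N) := by
        unfold ef
        rw [hsi]
        rfl
      rw [h1, ih]
  obtain ⟨v, hv, r, hr, hvr⟩ := lrq_aux hLRF (B ⧸ N) (by
      intro a b
      induction a using QuotientGroup.induction_on with | _ a => ?_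
      induction b using QuotientGroup.induction_on with | _ b => ?_
      rw [← QuotientGroup.mk_mul, ← QuotientGroup.mk_mul, heq]
      have := hcom a b
      rwa [mul_inv_rev, ← mul_assoc]) p μ s hp hp2 hμ (by
      intro hd
      haveI := Fact.mk hp
      obtain ⟨x, hx⟩ := exists_prime_orderOf_dvd_card' p hd
      apply hE
      rw [← hx]
      apply orderOf_dvd_of_pow_eq_one
      induction x using QuotientGroup.induction_on with | _ x => ?_
      rw [← QuotientGroup.mk_pow, QuotientGroup.eq_one_iff]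
      exact hexp x) (by
      ext v
      induction v using QuotientGroup.induction_on with | _ x => ?_
      rw [hpow, MulAut.one_apply, heq]
      exact hone x) (by
      intro h
      obtain ⟨x, hx⟩ := hne
      apply hx
      rw [← heq, ← hpow, h, MulAut.one_apply])
  obtain ⟨ξ, rfl⟩ := QuotientGroup.mk_surjective v
  refine ⟨ξ, r, ?_, hr, ?_⟩
  · intro h
    exact hv ((QuotientGroup.eq_one_iff ξ).2 h)
  · rcases hvr with h | h
    · left
      rw [← heq, ← hef, ← hs]
      exact h
    · right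
      rw [← heq, ← hefi, ← hsi]
      exact h

end Pool.ENR
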