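import Mathlib
import Pool.Agent.H36.ENR.Stmts2

set_option autoImplicit false

namespace Pool.ENR

open Pool.Agent.H81.ENG Pool.Agent.H55.NEU

open Polynomial in
theorem nrm_thm : NRMStmt := by
  intro F _ _ t c ht
  classical
  obtain ⟨hF⟩ : Nonempty (Fintype F) := ⟨Fintype.ofFinite F⟩
  by_cases h2 : ringChar F = 2
  · obtain ⟨x, hx⟩ := FiniteField.isSquare_of_char_two h2 c
    exact ⟨x, 0, by rw [hx]; ring⟩
  · have h20 : (2 : F) ≠ 0 := Ring.two_ne_zero h2
    have h4 : (4 : F) ≠ 0 := by
      have : (4 : F) = 2 * 2 := by norm_num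
      rw [this]
      exact mul_ne_zero h20 h20
    have hd : (4 - t * t) / 4 ≠ 0 := div_ne_zero (sub_ne_zero.2 (Ne.symm ht)) h4
    have hf2 : (X ^ 2 - C c : F[X]).degree = 2 := by
      compute_degree!
    have hg2 : (C ((4 - t * t) / 4) * X ^ 2 : F[X]).degree = 2 := by
      rw [degree_C_mul hd, degree_X_pow]
      rfl
    obtain ⟨a, b, hab⟩ := FiniteField.exists_root_sum_quadratic hf2 hg2
      (FiniteField.odd_card_of_char_ne_two h2)
    refine ⟨a - t * b / 2, b, ?_⟩
    simp only [eval_sub, eval_pow, eval_X, eval_C, eval_mul] at hab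
    have h1 : (a - t * b / 2) * (a - t * b / 2) + t * (a - t * b / 2) * b + b * b =
        a ^ 2 + (4 - t * t) / 4 * b ^ 2 := by
      field_simp
      ring
    rw [h1]
    linear_combination hab

end Pool.ENR
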